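import Pool.Agent.Helper30_Simp2.Stmts

/-!
SIMP2, module GCD: steps of different slopes are coprime (helper36).
-/

set_option autoImplicit false

namespace Pool.Agent.Helper30_Simp2.H36

open Pool.Agent.Helper6_Mono Pool.Agent.Helper30_Simp

section gen

variable {R : Type*} [CommRing R] (z : R)

/-- one step -/
def st (u v : ℕ) (a : ℕ → R) : ℕ → R := fun m => a (m + v) - z ^ u * a m

theorem st_comm (u v u' v' : ℕ) (a : ℕ → R) :
    st z u v (st z u' v' a) = st z u' v' (st z u v a) := by
  funext m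
  simp only [st]
  rw [show m + v + v' = m + v' + v by ring]
  ring

/-- eventually zero -/
def EZ (a : ℕ → R) : Prop := ∃ N, ∀ m, N ≤ m → a m = 0

theorem EZ.st {u v : ℕ} {a : ℕ → R} (h : EZ a) : EZ (st z u v a) := by
  obtain ⟨N, hN⟩ := h
  refine ⟨N, fun m hm => ?_⟩
  simp only [H36.st]
  rw [hN m hm, hN (m + v) (by omega), mul_zero, sub_zero]

theorem RQ_st {P : Set (ℕ × ℕ)} {a : ℕ → R} (h : RQ z P a) (u v : ℕ) : RQ z P (st z u v a) := by
  induction h with
  | fin a N h =>
    obtain ⟨N', hN'⟩ := EZ.st (u := u) (v := v) z ⟨N, h⟩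
    exact RQ.fin _ N' hN'
  | step a u' v' huv h ih =>
    refine RQ.step _ u' v' huv ?_
    have h1 : (fun m => st z u v a (m + v') - z ^ u' * st z u v a m) =
        st z u v (fun m => a (m + v') - z ^ u' * a m) := st_comm z u' v' u v a
    rw [h1]
    exact ih

theorem iter {u v : ℕ} {a : ℕ → R} {N : ℕ} (h : ∀ m, N ≤ m → st z u v a m = 0) (k : ℕ) :
    ∀ m, N ≤ m → a (m + k * v) = z ^ (k * u) * a m := by
  induction k with
  | zero => intro m _; simp
  | succ k ih =>
    intro m hm
    have h1 := h (m + k * v) (by omega)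
    simp only [st] at h1
    have h2 : m + (k + 1) * v = m + k * v + v := by ring
    rw [h2, sub_eq_zero.1 h1, ih m hm, ← mul_assoc, ← pow_add]
    congr 2
    ring

end gen

theorem coprime {u v u' v' : ℕ} {a : ℕ → Polynomial ℤ} (h : EZ (st Polynomial.X u v a))
    (h' : EZ (st Polynomial.X u' v' a)) (hne : v' * u ≠ v * u') : EZ a := by
  obtain ⟨N, hN⟩ := h
  obtain ⟨N', hN'⟩ := h'
  refine ⟨max N N', fun m hm => ?_⟩
  have h1 := iter Polynomial.X hN v' m (by omega)
  have h2 := iter Polynomial.X hN' v m (by omega)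
  rw [mul_comm v' v, h2] at h1
  have h3 : ((Polynomial.X : Polynomial ℤ) ^ (v * u') - Polynomial.X ^ (v' * u)) * a m = 0 := by
    rw [sub_mul, h1, sub_self]
  rcases mul_eq_zero.1 h3 with h4 | h4
  · exfalso
    have h5 := congrArg (fun p => Polynomial.coeff p (v * u')) (sub_eq_zero.1 h4)
    simp only [Polynomial.coeff_X_pow] at h5
    rw [if_pos trivial, if_neg (fun h => hne h.symm)] at h5
    exact one_ne_zero h5
  · exact h4

theorem key {V : Set ℚ} {u v : ℕ} (hv : 0 < v) (hV : (u : ℚ) / v ∉ V) {b : ℕ → Polynomial ℤ}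
    (h : RQ Polynomial.X (steps V) b) : EZ (st Polynomial.X u v b) → EZ b := by
  induction h with
  | fin a N h => exact fun _ => ⟨N, h⟩
  | step a u' v' huv h ih =>
    intro hb
    have h1 : EZ (st Polynomial.X u v (st Polynomial.X u' v' a)) := by
      rw [st_comm]
      exact hb.st _
    have h2 : EZ (st Polynomial.X u' v' a) := ih h1
    refine coprime hb h2 ?_
    intro heq
    apply hV
    have hv' : 0 < v' := huv.1
    have h3 : (u' : ℚ) / v' ∈ V := huv.2
    have h4 : (u : ℚ) / v = (u' : ℚ) / v' := by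
      rw [div_eq_div_iff (by positivity) (by positivity)]
      have : ((v' * u : ℕ) : ℚ) = ((v * u' : ℕ) : ℚ) := by rw [heq]
      push_cast at this
      linarith
    rw [h4]
    exact h3

theorem drop {U B : Set ℚ} {u v : ℕ} (hv : 0 < v) {d : ℕ → Polynomial ℤ}
    (h : RQ Polynomial.X (steps (U \ B)) d) :
    ∀ c : ℕ → Polynomial ℤ, d = st Polynomial.X u v c →
      RQ Polynomial.X (steps (U \ {(u : ℚ) / v})) c → RQ Polynomial.X (steps (U \ B)) c := by
  induction h with
  | fin a N h =>
    intro c hc h2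
    obtain ⟨N', hN'⟩ := key hv (fun hh => hh.2 rfl) h2 ⟨N, by rw [← hc]; exact h⟩
    exact RQ.fin _ N' hN'
  | step a u' v' huv h ih =>
    intro c hc h2
    refine RQ.step _ u' v' huv (ih (st Polynomial.X u' v' c) ?_ (RQ_st _ h2 u' v'))
    rw [st_comm, ← hc]
    rfl

/-- MODULE GCD -/
theorem gcd : GcdStmt := by
  intro U B a h
  induction h with
  | fin a N h => exact fun _ => RQ.fin _ N h
  | step a u v huv h ih =>
    intro hB
    have h1 : RQ Polynomial.X (steps (U \ B)) (st Polynomial.X u v a) :=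
      ih fun x hx => RQ_st _ (hB x hx) u v
    by_cases hx : (u : ℚ) / v ∈ B
    · exact drop huv.1 h1 a rfl (hB _ hx)
    · exact RQ.step _ u v ⟨huv.1, huv.2, hx⟩ h1

end Pool.Agent.Helper30_Simp2.H36
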